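import Pool.Agent.Helper38.XF.Spec

/-!
Swarm XF (MP_db9079_lc), part PRIM: a primitive element.
-/

set_option autoImplicit false

namespace Pool.Agent.Helper67.XF.PRIM

open Polynomial Pool.Agent.Helper38.XF

theorem main : St_PRIM := by
  intro L _ k s φ hφ κ _ w hw
  classical
  letI : Algebra (RatFunc k) L := (φ : RatFunc k →+* L).toAlgebra
  have halg : algebraMap (RatFunc k) L = (φ : RatFunc k →+* L) := rfl
  -- the adjoined field is in the range
  have hle : IntermediateField.adjoin k {s} ≤ φ.fieldRange := by
    rw [IntermediateField.adjoin_le_iff]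
    intro x hx
    rw [Set.mem_singleton_iff] at hx
    rw [hx]
    exact ⟨RatFunc.X, hφ⟩
  have hsep : ∀ j, IsSeparable (RatFunc k) (w j) := by
    intro j
    have h1 : ∀ a : IntermediateField.adjoin k {s}, ∃ r : RatFunc k, φ r = a := fun a => hle a.2
    let e : RatFunc k ≃ₐ[k] φ.range := AlgEquiv.ofInjectiveField φ
    let σ : IntermediateField.adjoin k {s} →+* RatFunc k :=
      (e.symm : φ.range →+* RatFunc k).comp
        (RingHom.codRestrict (IntermediateField.adjoin k {s}).subtype φ.range
          (fun a => by
            obtain ⟨r, hr⟩ := h1 a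
            exact ⟨r, hr⟩))
    have hσ : ∀ a, φ (σ a) = a := by
      intro a
      have h2 : (e (σ a) : L) = a := by
        show ((e (e.symm _) : φ.range) : L) = a
        rw [e.apply_symm_apply]
        rfl
      exact h2
    have h3 := hw j
    have h4 : ((minpoly (IntermediateField.adjoin k {s}) (w j)).map σ).Separable :=
      Polynomial.Separable.map (f := σ) h3
    have h5 : aeval (w j) ((minpoly (IntermediateField.adjoin k {s}) (w j)).map σ) = 0 := by
      rw [aeval_def, halg, eval₂_map]
      have h6 : ((φ : RatFunc k →+* L)).comp σ = algebraMap (IntermediateField.adjoin k {s}) L := by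
        ext a
        exact hσ a
      rw [h6]
      exact minpoly.aeval _ _
    exact h4.of_dvd (minpoly.dvd _ _ h5)
  have hint : ∀ j, IsIntegral (RatFunc k) (w j) := fun j => (hsep j).isIntegral
  haveI : FiniteDimensional (RatFunc k) (IntermediateField.adjoin (RatFunc k) (Set.range w)) := by
    apply IntermediateField.finiteDimensional_adjoin
    rintro x ⟨j, rfl⟩
    exact hint j
  haveI : Algebra.IsSeparable (RatFunc k) (IntermediateField.adjoin (RatFunc k) (Set.range w)) := by
    rw [IntermediateField.isSeparable_adjoin_iff_isSeparable]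
    rintro x ⟨j, rfl⟩
    exact hsep j
  obtain ⟨α, hα⟩ := Field.exists_primitive_element (RatFunc k)
    (IntermediateField.adjoin (RatFunc k) (Set.range w))
  have hαi : IsIntegral (RatFunc k) α := Algebra.IsIntegral.isIntegral α
  have hαs : IsSeparable (RatFunc k) α := Algebra.IsSeparable.isSeparable _ α
  have hc : ∀ j, ∃ q : (RatFunc k)[X], w j = aeval (α : L) q := by
    intro j
    have h1 : (⟨w j, IntermediateField.subset_adjoin _ _ ⟨j, rfl⟩⟩ :
        IntermediateField.adjoin (RatFunc k) (Set.range w)) ∈
          (IntermediateField.adjoin (RatFunc k) {α}).toSubalgebra := by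
      rw [hα]
      exact IntermediateField.mem_top
    rw [IntermediateField.adjoin_simple_toSubalgebra_of_isAlgebraic hαi.isAlgebraic,
      Algebra.adjoin_singleton_eq_range_aeval] at h1
    obtain ⟨q, hq⟩ := h1
    refine ⟨q, ?_⟩
    have h2 : (((aeval α) q : IntermediateField.adjoin (RatFunc k) (Set.range w)) : L) = w j :=
      congrArg (Subtype.val) hq
    exact h2.symm.trans (Polynomial.aeval_algebraMap_apply L α q).symm
  choose c hc using hc
  have hmin : minpoly (RatFunc k) (α : L) = minpoly (RatFunc k) α :=
    minpoly.algebraMap_eq (algebraMap (IntermediateField.adjoin (RatFunc k) (Set.range w)) L).injective α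
  refine ⟨minpoly (RatFunc k) (α : L), α, c, ?_, ?_, ?_, ?_⟩
  · exact minpoly.aeval (RatFunc k) (α : L)
  · have h1 : (minpoly (RatFunc k) (α : L)).Separable := by
      rw [hmin]; exact hαs
    exact h1.aeval_derivative_ne_zero (minpoly.aeval (RatFunc k) (α : L))
  · intro j
    rw [hc j]
    rfl
  · intro f hf
    exact minpoly.dvd _ _ hf

end Pool.Agent.Helper67.XF.PRIM
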